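import Pool.Agent.W243.TD.Stm
import Pool.Agent.H335R2.Obs.Final

/-! TD-OBS: the obstruction theorem in transcendence degree one, from the auxiliary polynomials. -/

set_option autoImplicit false

namespace Pool.Agent.W689.TD

open Polynomial Finset Module
open Pool.Agent.W243.TD
open Pool.Agent.H335R2.Obs

/-- **TD-OBS** -/
theorem obs : S_aux → S_obs := by
  classical
  intro haux θ hθ w b l A τ hτ γ ω hγ hω hχ κ μ σ hκ hcount
  set N := A.card + b with hN
  set C := 2 ^ ((N + 1) * N) with hC
  have hC1 : 1 ≤ C := Nat.one_le_two_pow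
  obtain ⟨n, hn, p, hp, hpv⟩ := haux θ hθ w b l A τ hτ γ ω hγ hω hχ κ μ σ hκ hcount
    (N * (w + 1) * (C + 1)) (C + 1)
  have hχ0 : ∀ j p, Complex.exp (∑ i, γ i j * ω i p) ≠ 0 := fun j p => Complex.exp_ne_zero _
  have hn1 : 1 ≤ n := by omega
  obtain ⟨Af', Rm', W0, G0, h1, h2, h3, h4, l', q', h5, h6, h7, h8⟩ :=
    key_ineq A γ ω (fun j p => Complex.exp (∑ i, γ i j * ω i p)) zeg hχ0
      (n ^ κ) (n ^ μ) (τ * ((w + 1) * (C + 1) * n ^ κ)) ((w + 1) * (C + 1) * n ^ σ)
      (Nat.one_le_pow _ _ hn1) (Nat.one_le_pow _ _ hn1) p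
      (fun j i => (j.1 i : ℕ)) (fun j i => (j.2 i : ℕ))
      (by
        intro j i hi
        have : (j.1 i : ℕ) < (if i ∈ A then n ^ κ else 0) + 1 := (j.1 i).2
        rw [if_neg hi] at this
        omega)
      (by
        intro j j' h h'
        apply Prod.ext
        · funext i; exact Fin.ext (congrFun h i)
        · funext i; exact Fin.ext (congrFun h' i))
      hp
      (by
        intro j i
        have : (j.1 i : ℕ) < (if i ∈ A then n ^ κ else 0) + 1 := (j.1 i).2
        split_ifs at this <;> omega)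
      (by
        intro j i
        have := (j.2 i).2
        omega)
      (by
        intro t s ht hs
        apply hpv t s
        · intro i
          refine (ht i).trans (le_of_eq ?_)
          rw [← hN]; ring
        · intro q
          refine (hs q).trans (le_of_eq ?_)
          rw [← hN]; ring)
  refine ⟨Af', Rm', W0, G0, h1, h2, h3, ?_, ?_⟩
  · intro s
    rw [h4 s]
    apply and_congr Iff.rfl
    apply forall_congr'
    intro m
    apply imp_congr_right
    intro _
    have e1 : ∏ j, (∏ p, Complex.exp (∑ i, γ i j * ω i p) ^ s p) ^ m j =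
        Complex.exp (∑ j, ∑ p, (m j : ℂ) * (s p : ℂ) * ∑ i, γ i j * ω i p) := by
      rw [Complex.exp_sum]
      apply Finset.prod_congr rfl
      intro j _
      rw [← Finset.prod_zpow, Complex.exp_sum]
      apply Finset.prod_congr rfl
      intro p _
      rw [← zpow_mul, ← Complex.exp_int_mul]
      congr 1
      push_cast; ring
    rw [e1, Complex.exp_eq_one_iff]
  · have hS : (C + 1) * n ^ σ ≤ (w + 1) * (C + 1) * n ^ σ + 1 := by
      calc (C + 1) * n ^ σ = 1 * ((C + 1) * n ^ σ) := (one_mul _).symm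
        _ ≤ (w + 1) * ((C + 1) * n ^ σ) := Nat.mul_le_mul_right _ (by omega)
        _ = (w + 1) * (C + 1) * n ^ σ := by ring
        _ ≤ _ := Nat.le_succ _
    have h12 : l - finrank ℤ G0 ≤ q' := by omega
    have h14 : (l - finrank ℤ G0) * σ ≤ q' * σ := Nat.mul_le_mul_right _ h12
    have hτ' : τ = 0 ∨ τ = 1 := by omega
    rcases hτ' with rfl | rfl
    · have h9 : ((C + 1) * n ^ σ) ^ q' * ((C + 1) * n ^ κ) ^ 0 ≤
          C * ((n ^ κ) ^ finrank ℂ Af' * (n ^ μ) ^ finrank ℤ Rm') := by
        refine le_trans ?_ h8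
        apply Nat.mul_le_mul (Nat.pow_le_pow_left hS _)
        rw [pow_zero]
        exact Nat.one_le_pow _ _ (Nat.succ_pos _)
      have h10 := final_arith (κ := κ) (μ := μ) (σ := σ) hC1 (by omega) (by omega) h9
      simp only [zero_mul, zero_add, true_and, true_or] at h10 ⊢
      rcases h10 with h10 | ⟨h10, h16⟩
      · left; omega
      · rcases Nat.lt_or_ge ((l - finrank ℤ G0) * σ)
          (finrank ℂ Af' * κ + finrank ℤ Rm' * μ) with h17 | h17
        · exact Or.inl h17
        · right
          exact ⟨by omega, by omega⟩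
    · have h9 : ((C + 1) * n ^ σ) ^ q' * ((C + 1) * n ^ κ) ^ l' ≤
          C * ((n ^ κ) ^ finrank ℂ Af' * (n ^ μ) ^ finrank ℤ Rm') := by
        refine le_trans ?_ h8
        apply Nat.mul_le_mul (Nat.pow_le_pow_left hS _)
        rcases Nat.eq_zero_or_pos l' with h0 | h0
        · rw [h0, pow_zero, pow_zero]
        · apply Nat.pow_le_pow_left
          have h10 : (C + 1) * n ^ κ ≤ 1 * ((w + 1) * (C + 1) * n ^ κ) / l' := by
            rw [Nat.le_div_iff_mul_le h0]
            calc (C + 1) * n ^ κ * l' ≤ (C + 1) * n ^ κ * (w + 1) :=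
                  Nat.mul_le_mul_left _ (by omega)
              _ = _ := by ring
          omega
      have h10 := final_arith (κ := κ) (μ := μ) (σ := σ) hC1 (by omega) (by omega) h9
      have h11 : w - finrank ℂ W0 ≤ l' := by omega
      have h13 : (w - finrank ℂ W0) * κ ≤ l' * κ := Nat.mul_le_mul_right _ h11
      simp only [one_mul]
      rcases h10 with h10 | ⟨h10, h15, h16⟩
      · left; omega
      · rcases Nat.lt_or_ge ((w - finrank ℂ W0) * κ + (l - finrank ℤ G0) * σ)
          (finrank ℂ Af' * κ + finrank ℤ Rm' * μ) with h17 | h17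
        · exact Or.inl h17
        · right
          exact ⟨by omega, Or.inr (by omega), by omega⟩

end Pool.Agent.W689.TD
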